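import Pool.Agent.H21Abs.Max

/-!
# MP_77fe52_lc: the scheme (A) is consistent with ZFC

There is a countable model `(M, E)` of ZFC, with `ω, ω₁, ω₂` of the model being `w, w1, w2`, such
that every `Σ₁` statement `φ(ω₁, ω₂)` that is true in *some* end extension of `M` to a model of ZFC
with the same `ω₁` and `ω₂` is already true in `M`.

As `M` is countable, every forcing notion `P` of `M` has `M`-generic filters `G`, and each generic
extension `M[G]` is an end extension of `M` and a model of ZFC.  So if `P` is a forcing notion of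
`M` that preserves `ℵ₁` and `ℵ₂` and forces `φ(ω₁, ω₂)` over `M`, then `φ(ω₁, ω₂)` holds in `M`.

The formulas, the axioms of ZFC and satisfaction are defined in `Pool.Agent.BVM.Fml`; `ω` and
successor cardinals of a structure in `Pool.Agent.BVM.Notions`; bounded formulas, `Σ₁` formulas
and end extensions in `Pool.Agent.H21Abs.Abs`.

Idea: take a set `Φ` of `Σ₁` sentences about `ω₁, ω₂` which is maximal among those consistent with
ZFC, and a countable model `M` of ZFC together with `Φ`.  If `φ` holds in an end extension `N` with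
the same `ω₁, ω₂`, then so do all sentences of `Φ`, hence `φ` belongs to `Φ`.
-/

namespace Pool.Agent.Results.MP_77fe52_lc.SchemeConsistent

open Pool.Agent.BVM Pool.Agent.H21Abs

universe u

theorem result : ∃ (M : Type) (_ : Countable M) (E : M → M → Prop) (w w1 w2 : M),
    ZFC E ∧ Omega E w ∧ SuccCard E w1 w ∧ SuccCard E w2 w1 ∧
      ∀ φ : Fml, Sigma1 φ → ∀ (N : Type u) (E' : N → N → Prop) (j : M → N),
        ZFC E' → EndExt E E' j → SuccCard E' (j w1) (j w) → SuccCard E' (j w2) (j w1) →
          Sat E' φ (at2 (j w1) (j w2)) → Sat E φ (at2 w1 w2) := by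
  obtain ⟨M, hc, E, w, w1, w2, hM, h⟩ := exists_maximal.{u}
  exact ⟨M, hc, E, w, w1, w2, hM.zfc, hM.om, hM.s1, hM.s2, h⟩

end Pool.Agent.Results.MP_77fe52_lc.SchemeConsistent
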